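import Mathlib

/-! # An average of products of numbers in `[0, 1]` -/

open Finset

namespace Pool.Agent.Q9.RP

/-- for numbers in `[0, 1]` the sum of the products of different ones is bounded below by the values
at the vertices -/
lemma quad {ι : Type*} (s : Finset ι) (x : ι → ℝ) :
    (∀ i ∈ s, 0 ≤ x i) → (∀ i ∈ s, x i ≤ 1) → ∀ κ : ℤ,
      2 * (κ : ℝ) * ∑ i ∈ s, x i - κ * (κ + 1) ≤ (∑ i ∈ s, x i) ^ 2 - ∑ i ∈ s, x i ^ 2 := by
  classical
  induction s using Finset.induction_on with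
  | empty =>
    intro _ _ κ
    simp only [sum_empty]
    have h : (0 : ℝ) ≤ κ * (κ + 1) := by
      have : (0 : ℤ) ≤ κ * (κ + 1) := by
        rcases le_or_gt 0 κ with h | h
        · positivity
        · have h1 : κ + 1 ≤ 0 := by omega
          exact mul_nonneg_of_nonpos_of_nonpos h.le h1
      exact_mod_cast this
    nlinarith
  | insert a s ha ih =>
    intro h0 h1 κ
    have a0 := h0 a (mem_insert_self a s)
    have a1 := h1 a (mem_insert_self a s)
    have h0' : ∀ i ∈ s, 0 ≤ x i := fun i hi => h0 i (mem_insert_of_mem hi)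
    have h1' : ∀ i ∈ s, x i ≤ 1 := fun i hi => h1 i (mem_insert_of_mem hi)
    have e1 := ih h0' h1' κ
    have e2 := ih h0' h1' (κ - 1)
    rw [sum_insert ha, sum_insert ha]
    push_cast at e2
    set S := ∑ i ∈ s, x i
    set Q := ∑ i ∈ s, x i ^ 2
    set t := x a
    have e3 := mul_nonneg (sub_nonneg.2 a1) (sub_nonneg.2 e1)
    have e4 := mul_nonneg a0 (sub_nonneg.2 e2)
    nlinarith

/-- averages over a finite index set -/
theorem pair_of_average {m N : ℕ} (κ : ℤ) (Y : Fin m → ℕ → ℝ)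
    (h0 : ∀ i k, 0 ≤ Y i k) (h1 : ∀ i k, Y i k ≤ 1) {P B : ℝ} (hκ : 0 ≤ κ)
    (hP : ∀ i, P * N ≤ ∑ k ∈ range N, Y i k)
    (hB : B * (m * (m - 1)) < (2 * κ * (m * P) - κ * (κ + 1)) * N) :
    ∃ i j : Fin m, i < j ∧ B < ∑ k ∈ range N, Y i k * Y j k := by
  classical
  by_contra hcon
  push Not at hcon
  have hle : ∀ i j : Fin m, i ≠ j → ∑ k ∈ range N, Y i k * Y j k ≤ B := by
    intro i j hij
    rcases lt_or_gt_of_ne hij with h | h
    · exact hcon i j h
    · refine le_trans (le_of_eq ?_) (hcon j i h)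
      exact sum_congr rfl fun k _ => mul_comm _ _
  -- the sum of the squares
  have e1 : ∑ k ∈ range N, (∑ i, Y i k) ^ 2 = ∑ i, ∑ j, ∑ k ∈ range N, Y i k * Y j k := by
    have : ∀ k, (∑ i, Y i k) ^ 2 = ∑ i, ∑ j, Y i k * Y j k := by
      intro k
      rw [sq, sum_mul_sum]
    rw [sum_congr rfl fun k _ => this k, sum_comm]
    refine sum_congr rfl fun i _ => ?_
    rw [sum_comm]
  have e2 : ∀ i : Fin m, ∑ j, ∑ k ∈ range N, Y i k * Y j k ≤
      ∑ k ∈ range N, Y i k ^ 2 + (m - 1) * B := by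
    intro i
    rw [← add_sum_erase univ _ (mem_univ i)]
    apply add_le_add
    · exact le_of_eq (sum_congr rfl fun k _ => by rw [sq])
    · calc ∑ j ∈ univ.erase i, ∑ k ∈ range N, Y i k * Y j k
          ≤ ∑ _j ∈ univ.erase i, B :=
            sum_le_sum fun j hj => hle i j (ne_of_mem_erase hj).symm
        _ = (m - 1) * B := by
            rw [sum_const, card_erase_of_mem (mem_univ i), card_univ, Fintype.card_fin, nsmul_eq_mul]
            have hm : 1 ≤ m := by
              have := i.isLt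
              omega
            push_cast [Nat.cast_sub hm]
            ring
  have e3 : ∑ k ∈ range N, (∑ i, Y i k) ^ 2 ≤
      ∑ i, ∑ k ∈ range N, Y i k ^ 2 + m * ((m - 1) * B) := by
    rw [e1]
    calc ∑ i, ∑ j, ∑ k ∈ range N, Y i k * Y j k
        ≤ ∑ i : Fin m, (∑ k ∈ range N, Y i k ^ 2 + (m - 1) * B) := sum_le_sum fun i _ => e2 i
      _ = ∑ i, ∑ k ∈ range N, Y i k ^ 2 + m * ((m - 1) * B) := by
          rw [sum_add_distrib, sum_const, card_univ, Fintype.card_fin, nsmul_eq_mul]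
  have e4 : ∑ k ∈ range N, (2 * (κ : ℝ) * ∑ i, Y i k - κ * (κ + 1)) ≤
      ∑ k ∈ range N, ((∑ i, Y i k) ^ 2 - ∑ i, Y i k ^ 2) :=
    sum_le_sum fun k _ => quad univ (fun i => Y i k) (fun i _ => h0 i k) (fun i _ => h1 i k) κ
  rw [sum_sub_distrib, sum_sub_distrib, sum_const, card_range, nsmul_eq_mul, ← mul_sum,
    sum_comm, sum_comm (f := fun k i => Y i k ^ 2)] at e4
  have e5 : (m : ℝ) * (P * N) ≤ ∑ i, ∑ k ∈ range N, Y i k := by
    calc (m : ℝ) * (P * N) = ∑ _i : Fin m, P * N := by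
          rw [sum_const, card_univ, Fintype.card_fin, nsmul_eq_mul]
      _ ≤ _ := sum_le_sum fun i _ => hP i
  have hκ' : (0 : ℝ) ≤ 2 * κ := by
    have : (0 : ℝ) ≤ κ := by exact_mod_cast hκ
    linarith
  have e6 := mul_le_mul_of_nonneg_left e5 hκ'
  have e7 : (2 * (κ : ℝ) * (m * P) - κ * (κ + 1)) * N =
      2 * κ * (m * (P * N)) - N * (κ * (κ + 1)) := by ring
  rw [e7] at hB
  have e8 : B * (m * (m - 1)) = m * ((m - 1) * B) := by ring
  rw [e8] at hB
  linarith

end Pool.Agent.Q9.RP
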