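import Pool.Agent.TH342.CV.Boxes
import Pool.Agent.Q9.RP.Quad

/-! # Pairs of simple critical zeros among several positions -/

open Complex Filter Topology Set MeasureTheory
open scoped BigOperators ComplexConjugate

namespace Pool.Agent.Q9.RP

open H370 Pool.Agent.TH342.CV

/-- the pairs: `z.1` is the ordinate in `(T, T + H]` of a simple critical zero of `F`, `z.2` that of
one of `G`, and `z.2 - z.1` lies between `α * σ` and `β * σ` -/
def PR (F G : ℂ → ℂ) (T H σ α β : ℝ) : Set (ℝ × ℝ) :=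
  {z | T < z.1 ∧ z.1 ≤ T + H ∧ SimpleAt F z.1 ∧ SimpleAt G z.2 ∧
    α * σ < z.2 - z.1 ∧ z.2 - z.1 < β * σ}

lemma PR_finite {F G : ℂ → ℂ} (hF : GoodL F) (hG : GoodL G) {T H σ α β : ℝ} (hT : 1 ≤ T)
    (hα : 1 ≤ T + α * σ) : (PR F G T H σ α β).Finite := by
  have h0 := simple_finite hF (T1 := T) (T2 := T + H) hT
  have h1 := simple_finite hG (T1 := T + α * σ) (T2 := T + H + β * σ) hα
  refine (h0.prod h1).subset ?_
  rintro ⟨x, y⟩ ⟨p1, p2, p3, p4, p5, p6⟩
  simp only at p1 p2 p3 p4 p5 p6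
  exact ⟨⟨p1, p2, p3⟩, ⟨by simp only; linarith, by simp only; linarith, p4⟩⟩

/-- the truncated counts in the cells -/
noncomputable def xx (F : ℂ → ℂ) (u w M : ℝ) (k : ℕ) : ℝ :=
  min (cnt F (u + k * w) (u + (k + 1) * w) : ℝ) M / M

lemma xx_nonneg {F : ℂ → ℂ} {u w M : ℝ} (hM : 0 < M) (k : ℕ) : 0 ≤ xx F u w M k := by
  unfold xx
  positivity

lemma xx_le {F : ℂ → ℂ} {u w M : ℝ} (hM : 0 < M) (k : ℕ) : xx F u w M k ≤ 1 := by
  unfold xx
  rw [div_le_one hM]
  exact min_le_right _ _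

lemma xx_le_cnt {F : ℂ → ℂ} {u w M : ℝ} (hM : 0 < M) (k : ℕ) :
    M * xx F u w M k ≤ (cnt F (u + k * w) (u + (k + 1) * w) : ℝ) := by
  unfold xx
  rw [mul_div_cancel₀ _ hM.ne']
  exact min_le_left _ _

/-- pairs of cells: for one block of `K` cells of the second function -/
lemma block_le {F G : ℂ → ℂ} (hF : GoodL F) (hG : GoodL G) {T H σ α β w M u v : ℝ} (hw : 0 < w)
    (hM : 0 < M) (hT : 1 ≤ T) (hα : 1 ≤ T + α * σ) (N K r : ℕ) (hr : r < K)
    (hu : T ≤ u) (huH : u + (N + K : ℕ) * w ≤ T + H) (hv : 1 ≤ v)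
    (hl : α * σ ≤ v - u - (r + 1) * w) (hR : v - u + (K - r) * w ≤ β * σ) :
    M ^ 2 * ∑ k ∈ Finset.range N, ∑ r' ∈ Finset.range K,
      xx F u w M (k + r) * xx G v w M (k + r') ≤ ((PR F G T H σ α β).ncard : ℝ) := by
  classical
  set Bx : Set (ℝ × (Fin 1 → ℝ)) := {p | (p.1, p.2 0) ∈ PR F G T H σ α β} with hBx
  have hinj : Function.Injective (fun p : ℝ × (Fin 1 → ℝ) => (p.1, p.2 0)) := by
    rintro ⟨x, f⟩ ⟨y, g⟩ h
    simp only [Prod.mk.injEq] at h
    refine Prod.ext h.1 (funext fun i => ?_)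
    have : i = 0 := Subsingleton.elim _ _
    rw [this]
    exact h.2
  have hfin : Bx.Finite := (PR_finite hF hG hT hα).preimage (hinj.injOn)
  have hcard : Bx.ncard ≤ (PR F G T H σ α β).ncard := by
    apply Set.ncard_le_ncard_of_injOn (fun p : ℝ × (Fin 1 → ℝ) => (p.1, p.2 0)) (fun p hp => hp)
      hinj.injOn (PR_finite hF hG hT hα)
  have hkey := box_count (n := 1) (F0 := F) (F := fun _ => G) (T := u + r * w) (w := w) hw N
    (fun _ => v - u - r * w) (fun _ => K) hfin (by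
      intro k hk x0 h1 h2 h3 x hx
      obtain ⟨h4, h5, h6⟩ := hx 0
      have hk1 : (k : ℝ) + 1 ≤ N := by exact_mod_cast hk
      have hr1 : (r : ℝ) + 1 ≤ K := by exact_mod_cast hr
      have hk0 : (0 : ℝ) ≤ k := Nat.cast_nonneg k
      have hr0 : (0 : ℝ) ≤ r := Nat.cast_nonneg r
      have e1 := mul_nonneg hk0 hw.le
      have e2 := mul_nonneg hr0 hw.le
      have e3 := mul_le_mul_of_nonneg_right hk1 hw.le
      have e4 := mul_le_mul_of_nonneg_right hr1 hw.le
      push_cast at huH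
      refine ⟨?_, ?_, h3, h6, ?_, ?_⟩
      · simp only; linarith
      · simp only; linarith
      · simp only; linarith
      · simp only; linarith)
  refine le_trans ?_ (hkey.trans (by exact_mod_cast hcard))
  rw [Finset.mul_sum]
  refine Finset.sum_le_sum fun k hk => ?_
  rw [Fin.prod_univ_one]
  have e1 : u + r * w + k * w = u + ((k + r : ℕ) : ℝ) * w := by push_cast; ring
  have e2 : u + r * w + (k + 1) * w = u + (((k + r : ℕ) : ℝ) + 1) * w := by push_cast; ring
  have e3 : u + r * w + (v - u - r * w) + k * w = v + k * w := by ring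
  rw [e1, e2, e3, cnt_split hG (by
    have := mul_nonneg (Nat.cast_nonneg (α := ℝ) k) hw.le
    linarith) hw.le, ← Finset.mul_sum]
  have e4 : M ^ 2 * (xx F u w M (k + r) * ∑ r' ∈ Finset.range K, xx G v w M (k + r')) =
      (M * xx F u w M (k + r)) * ∑ r' ∈ Finset.range K, M * xx G v w M (k + r') := by
    rw [← Finset.mul_sum]; ring
  rw [e4]
  apply mul_le_mul
  · exact xx_le_cnt hM _
  · refine Finset.sum_le_sum fun r' _ => ?_
    refine (xx_le_cnt hM (k + r')).trans (le_of_eq ?_)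
    congr 2
    · push_cast; ring
    · push_cast; ring
  · exact Finset.sum_nonneg fun r' _ => mul_nonneg hM.le (xx_nonneg hM _)
  · exact Nat.cast_nonneg _

/-- **Pairs among several positions**, general form -/
theorem main {ε : ℝ} (hε : 0 < ε) : ∃ L₀ η δ : ℝ, 0 < L₀ ∧ 0 < η ∧ 0 < δ ∧ δ < 1 ∧
    ∀ (m κ : ℕ) (_ : 2 ≤ m) (_ : κ ≤ m) (F : Fin m → ℂ → ℂ), (∀ i, GoodL (F i)) → ∃ T₀ : ℝ, 10 ≤ T₀ ∧
      ∀ T : ℝ, T₀ ≤ T → ∀ H : ℝ, T ^ (1 - δ) ≤ H → H ≤ T → ∀ (L : ℝ) (a : Fin m → ℝ), L₀ ≤ L →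
        (∀ i, 0 ≤ a i ∧ (a i + L) * (2 * Real.pi / Real.log T) ≤ η * H) →
        ∃ (i j : Fin m) (α : ℝ), i < j ∧ a j - a i - L ≤ α ∧ α ≤ a j - a i ∧
          ((2 * κ * (m * (2 - cMTinv)) - κ * (κ + 1)) / (m * (m - 1)) - ε) * L *
            (H / (2 * Real.pi) * Real.log T) ≤
            ((PR (F i) (F j) T H (2 * Real.pi / Real.log T) α (α + L)).ncard : ℝ) := by
  classical
  have hpi := Real.pi_pos
  have hcg := cMTinv_gt_one
  set p : ℝ := 2 - cMTinv with hp
  set e : ℝ := min (1 / 2) (ε / 40) with he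
  have he0 : 0 < e := by rw [he]; positivity
  have he1 : e ≤ 1 / 2 := min_le_left _ _
  have heε : 40 * e ≤ ε := by
    have : e ≤ ε / 40 := min_le_right _ _
    linarith
  obtain ⟨g, hg0, d, hd0, hd1, hcore⟩ := core he0 (by linarith : e ≤ 1)
  refine ⟨3 * g / e, e / 4, d / 2, by positivity, by positivity, by positivity, by linarith,
    fun m κ hm hκm F hF => ?_⟩
  choose T1 hT1 hcoreT using fun i => hcore (F i) (hF i)
  obtain ⟨Tm, hTm⟩ : ∃ Tm : ℝ, ∀ i, T1 i ≤ Tm := by
    obtain ⟨M, hM⟩ := (Set.finite_range T1).bddAbove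
    exact ⟨M, fun i => hM (Set.mem_range_self i)⟩
  have htop : Tendsto (fun T : ℝ => T ^ (d / 2)) atTop atTop :=
    tendsto_rpow_atTop (by positivity)
  obtain ⟨T2, hT2⟩ := (htop.eventually_ge_atTop 4).exists_forall_of_atTop
  refine ⟨max (max Tm T2) 10, le_max_right _ _, fun T hT H hH1 hH2 L a hL ha => ?_⟩
  have hTm' : ∀ i, T1 i ≤ T := fun i =>
    (hTm i).trans (((le_max_left _ _).trans (le_max_left _ _)).trans hT)
  have hTd := hT2 T (((le_max_right _ _).trans (le_max_left _ _)).trans hT)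
  have hT10 : 10 ≤ T := (le_max_right _ _).trans hT
  have hT0 : 0 < T := by linarith
  have hlog : 0 < Real.log T := Real.log_pos (by linarith)
  set σ : ℝ := 2 * Real.pi / Real.log T with hσ
  have hσ0 : 0 < σ := by positivity
  have hH0 : 0 < H := lt_of_lt_of_le (Real.rpow_pos_of_pos hT0 _) hH1
  have hL0 : 0 < L := lt_of_lt_of_le (by positivity) hL
  have hmR : (2 : ℝ) ≤ m := by exact_mod_cast hm
  have hmm : 0 < (m : ℝ) * (m - 1) := mul_pos (by linarith) (by linarith)
  set c : ℝ := (2 * κ * (m * p) - κ * (κ + 1)) / (m * (m - 1)) with hc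
  have hX0 : 0 < H / (2 * Real.pi) * Real.log T := by positivity
  -- the trivial case
  have hij0 : ∃ i j : Fin m, i < j := ⟨⟨0, by omega⟩, ⟨1, by omega⟩, by simp⟩
  rcases le_or_gt (c - ε) 0 with hneg | hpos
  · obtain ⟨i, j, hij⟩ := hij0
    refine ⟨i, j, a j - a i, hij, by linarith, le_rfl, ?_⟩
    have h1 : (c - ε) * L * (H / (2 * Real.pi) * Real.log T) ≤ 0 := by
      rw [mul_assoc]
      exact mul_nonpos_of_nonpos_of_nonneg hneg (by positivity)
    exact h1.trans (Nat.cast_nonneg _)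
  -- cells
  set w : ℝ := g * σ with hw
  have hw0 : 0 < w := by positivity
  have hLg : 3 * g / e ≤ L := hL
  have hLg' : 3 * g ≤ e * L := by
    rw [div_le_iff₀ he0] at hLg; linarith
  have hL3 : 6 * g ≤ L := by
    have : e * L ≤ 1 / 2 * L := mul_le_mul_of_nonneg_right he1 hL0.le
    linarith
  set K : ℕ := ⌊L / g⌋₊ - 1 with hK
  have hfl : 6 ≤ L / g := by rw [le_div_iff₀ hg0]; exact hL3
  have hfl1 : 6 ≤ ⌊L / g⌋₊ := Nat.le_floor (by exact_mod_cast hfl)
  have hK1 : (K : ℝ) + 1 = ⌊L / g⌋₊ := by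
    have : K + 1 = ⌊L / g⌋₊ := by omega
    exact_mod_cast this
  have hKpos : 0 < K := by omega
  have hKR : (0 : ℝ) < K := by exact_mod_cast hKpos
  have hKup : ((K : ℝ) + 1) * g ≤ L := by
    rw [hK1]
    have := Nat.floor_le (by positivity : 0 ≤ L / g)
    calc (⌊L / g⌋₊ : ℝ) * g ≤ L / g * g := mul_le_mul_of_nonneg_right this hg0.le
      _ = L := by field_simp
  have hKlow : (1 - e) * L ≤ K * g := by
    have h1 : L / g < ⌊L / g⌋₊ + 1 := Nat.lt_floor_add_one _
    rw [← hK1, div_lt_iff₀ hg0] at h1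
    nlinarith
  -- positions
  obtain ⟨i0, -, -⟩ := hij0
  have hLσ : L * σ ≤ e / 4 * H := by
    have h1 := (ha i0).2
    have h2 := (ha i0).1
    have h3 : L * σ ≤ (a i0 + L) * σ := mul_le_mul_of_nonneg_right (by linarith) hσ0.le
    linarith
  have haσ : ∀ i, a i * σ ≤ e / 4 * H := by
    intro i
    have h1 := (ha i).2
    have h3 : a i * σ ≤ (a i + L) * σ := mul_le_mul_of_nonneg_right (by linarith) hσ0.le
    linarith
  have ha0 : ∀ i, 0 ≤ a i * σ := fun i => mul_nonneg (ha i).1 hσ0.le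
  have hKw : ((K : ℝ) + 1) * w ≤ e / 4 * H := by
    have : ((K : ℝ) + 1) * w = ((K : ℝ) + 1) * g * σ := by rw [hw]; ring
    rw [this]
    exact (mul_le_mul_of_nonneg_right hKup hσ0.le).trans hLσ
  have hwH : w ≤ e / 4 * H := by
    have : w ≤ ((K : ℝ) + 1) * w := le_mul_of_one_le_left hw0.le (by linarith)
    linarith
  set N : ℕ := ⌊(1 - e / 2) * H / w⌋₊ with hN
  have hq0 : 0 ≤ (1 - e / 2) * H / w := by
    apply div_nonneg (mul_nonneg (by linarith) hH0.le) hw0.le
  have hNup : (N : ℝ) * w ≤ (1 - e / 2) * H := by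
    have := Nat.floor_le hq0
    calc (N : ℝ) * w ≤ (1 - e / 2) * H / w * w := mul_le_mul_of_nonneg_right this hw0.le
      _ = (1 - e / 2) * H := by field_simp
  have hNlow : (1 - e) * H ≤ N * w := by
    have h1 : (1 - e / 2) * H / w < N + 1 := Nat.lt_floor_add_one _
    rw [div_lt_iff₀ hw0] at h1
    nlinarith
  have hN0 : (0 : ℝ) ≤ N := Nat.cast_nonneg N
  have hNpos : (0 : ℝ) < N := by
    have h1 : 0 < (1 - e) * H := mul_pos (by linarith) hH0
    by_contra h2
    have h3 : (N : ℝ) = 0 := le_antisymm (not_lt.1 h2) hN0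
    rw [h3, zero_mul] at hNlow
    linarith
  -- the averages
  set M : ℝ := (1 + e) * g with hM
  have hM0 : 0 < M := by positivity
  have hNT1 : T ^ (1 - d) ≤ N * (g * (2 * Real.pi / Real.log T)) := by
    have h1 : T ^ (1 - d / 2) = T ^ (1 - d) * T ^ (d / 2) := by
      rw [← Real.rpow_add hT0]; congr 1; ring
    have h2 : T ^ (1 - d) * 4 ≤ H := by
      refine le_trans ?_ hH1
      rw [h1]
      exact mul_le_mul_of_nonneg_left hTd (Real.rpow_nonneg hT0.le _)
    have h3 : (1 / 2) * H ≤ (1 - e) * H := mul_le_mul_of_nonneg_right (by linarith) hH0.le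
    have h4 : 0 < T ^ (1 - d) := Real.rpow_pos_of_pos hT0 _
    have h5 : N * (g * (2 * Real.pi / Real.log T)) = N * w := by rw [hw, hσ]
    rw [h5]
    linarith
  have hNT2 : N * (g * (2 * Real.pi / Real.log T)) ≤ T := by
    have h5 : N * (g * (2 * Real.pi / Real.log T)) = N * w := by rw [hw, hσ]
    rw [h5]
    have h3 : (1 - e / 2) * H ≤ 1 * H := mul_le_mul_of_nonneg_right (by linarith) hH0.le
    linarith
  have hmean : ∀ (i : Fin m) (r : ℕ), r < K →
      (p - e) / (1 + e) * N ≤ ∑ k ∈ Finset.range N, xx (F i) (T + a i * σ) w M (k + r) := by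
    intro i r hr
    have hr1 : (r : ℝ) + 1 ≤ K := by exact_mod_cast hr
    have hr0 : (0 : ℝ) ≤ r := Nat.cast_nonneg r
    have hrw : (r : ℝ) * w ≤ e / 4 * H := by
      have : (r : ℝ) * w ≤ ((K : ℝ) + 1) * w := mul_le_mul_of_nonneg_right (by linarith) hw0.le
      linarith
    have hb : a i * σ + r * w ≤ T ^ (1 + d) := by
      have h1 : T ≤ T ^ (1 + d) := by
        calc T = T ^ (1 : ℝ) := (Real.rpow_one T).symm
          _ ≤ T ^ (1 + d) := Real.rpow_le_rpow_of_exponent_le (by linarith) (by linarith)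
      have h2 := haσ i
      have h3 : e / 4 * H ≤ 1 / 4 * H := mul_le_mul_of_nonneg_right (by linarith) hH0.le
      linarith
    have h := hcoreT i T (hTm' i) (a i * σ + r * w)
      (add_nonneg (ha0 i) (mul_nonneg hr0 hw0.le)) hb N hNT1 hNT2
    have h6 : ∑ k ∈ Finset.range N,
        min (cnt (F i) (T + (a i * σ + r * w) + k * (g * (2 * Real.pi / Real.log T)))
          (T + (a i * σ + r * w) + (k + 1) * (g * (2 * Real.pi / Real.log T))) : ℝ) ((1 + e) * g) =
        M * ∑ k ∈ Finset.range N, xx (F i) (T + a i * σ) w M (k + r) := by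
      rw [Finset.mul_sum]
      refine Finset.sum_congr rfl fun k _ => ?_
      unfold xx
      rw [mul_div_cancel₀ _ hM0.ne']
      congr 2
      congr 1
      · rw [hw, hσ]; push_cast; ring
      · rw [hw, hσ]; push_cast; ring
    rw [h6] at h
    have h7 : (2 - cMTinv - e) * (g * N) = M * ((p - e) / (1 + e) * N) := by
      rw [hM, hp]; field_simp
    rw [h7] at h
    exact le_of_mul_le_mul_left h hM0
  set Y : Fin m → ℕ → ℝ := fun i k =>
    (∑ r ∈ Finset.range K, xx (F i) (T + a i * σ) w M (k + r)) / K with hY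
  have hY0 : ∀ i k, 0 ≤ Y i k := fun i k =>
    div_nonneg (Finset.sum_nonneg fun r _ => xx_nonneg hM0 _) hKR.le
  have hY1 : ∀ i k, Y i k ≤ 1 := by
    intro i k
    simp only [hY]
    rw [div_le_one hKR]
    calc ∑ r ∈ Finset.range K, xx (F i) (T + a i * σ) w M (k + r) ≤ ∑ _r ∈ Finset.range K, (1 : ℝ) :=
          Finset.sum_le_sum fun r _ => xx_le hM0 _
      _ = K := by simp
  have hYm : ∀ i, (p - e) / (1 + e) * N ≤ ∑ k ∈ Finset.range N, Y i k := by
    intro i
    simp only [hY]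
    rw [← Finset.sum_div, Finset.sum_comm, le_div_iff₀ hKR]
    calc (p - e) / (1 + e) * N * K = ∑ _r ∈ Finset.range K, (p - e) / (1 + e) * N := by
          rw [Finset.sum_const, Finset.card_range, nsmul_eq_mul]; ring
      _ ≤ _ := Finset.sum_le_sum fun r hr => hmean i r (Finset.mem_range.1 hr)
  -- the pair
  have hκR : (κ : ℝ) ≤ m := by exact_mod_cast hκm
  have hκ0 : (0 : ℝ) ≤ κ := Nat.cast_nonneg κ
  have hp1 : p < 1 := by rw [hp]; linarith
  have hcc : (c - 20 * e) * ((m : ℝ) * (m - 1)) <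
      (1 + e) ^ 2 * (2 * κ * (m * ((p - e) / (1 + e))) - κ * (κ + 1)) := by
    have h1 : c * ((m : ℝ) * (m - 1)) = 2 * κ * (m * p) - κ * (κ + 1) := by
      rw [hc, div_mul_cancel₀ _ hmm.ne']
    have h2 : (1 + e) ^ 2 * (2 * κ * (m * ((p - e) / (1 + e))) - κ * (κ + 1)) =
        2 * κ * m * ((p - e) * (1 + e)) - (1 + e) ^ 2 * (κ * (κ + 1)) := by
      field_simp
    rw [h2, sub_mul, h1]
    have hκm0 : 0 ≤ (κ : ℝ) * m := by positivity
    have hp0 : p - e ≤ (p - e) * (1 + e) + e * (1 / 2) := by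
      -- `(p - e) e + e / 2 ≥ 0` if `p ≥ 0`; here `e ≤ 1/2`
      have h3 : 0 ≤ (κ : ℝ) := hκ0
      by_contra h4
      have h5 : c - ε < 0 := by
        have h6 : p < 0 := by nlinarith
        have h7 : c ≤ 0 := by
          rw [hc]
          apply div_nonpos_of_nonpos_of_nonneg _ hmm.le
          have h8 : 2 * (κ : ℝ) * (m * p) ≤ 0 :=
            mul_nonpos_of_nonneg_of_nonpos (by positivity)
              (mul_nonpos_of_nonneg_of_nonpos (by positivity) h6.le)
          have h9 : 0 ≤ (κ : ℝ) * (κ + 1) := by positivity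
          linarith
        linarith
      linarith
    have h3 : 2 * (κ : ℝ) * m * (p - 3 / 2 * e) ≤ 2 * κ * m * ((p - e) * (1 + e)) := by
      apply mul_le_mul_of_nonneg_left _ (by positivity)
      linarith
    have h4 : (1 + e) ^ 2 ≤ 1 + 5 / 2 * e := by nlinarith
    have h5 : (1 + e) ^ 2 * ((κ : ℝ) * (κ + 1)) ≤ (1 + 5 / 2 * e) * (κ * (κ + 1)) :=
      mul_le_mul_of_nonneg_right h4 (by positivity)
    have h6 : (κ : ℝ) * (κ + 1) ≤ m * (m + 1) :=
      mul_le_mul hκR (by linarith) (by positivity) (by positivity)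
    have h7 : (κ : ℝ) * m ≤ m * m := mul_le_mul_of_nonneg_right hκR (by positivity)
    have h8 : 3 * ((m : ℝ) * m) + 5 / 2 * (m * (m + 1)) < 20 * (m * (m - 1)) := by nlinarith
    have h9 : e * (3 * ((κ : ℝ) * m) + 5 / 2 * (κ * (κ + 1))) < e * (20 * (m * (m - 1))) := by
      apply mul_lt_mul_of_pos_left _ he0
      linarith
    have q1 : 2 * (κ : ℝ) * m * (p - 3 / 2 * e) = 2 * κ * (m * p) - 3 * (e * (κ * m)) := by ring
    have q2 : (1 + 5 / 2 * e) * ((κ : ℝ) * (κ + 1)) = κ * (κ + 1) + 5 / 2 * (e * (κ * (κ + 1))) := by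
      ring
    have q3 : e * (3 * ((κ : ℝ) * m) + 5 / 2 * (κ * (κ + 1))) =
        3 * (e * (κ * m)) + 5 / 2 * (e * (κ * (κ + 1))) := by ring
    have q4 : 20 * e * ((m : ℝ) * (m - 1)) = e * (20 * (m * (m - 1))) := by ring
    rw [q1] at h3
    rw [q2] at h5
    rw [q3] at h9
    rw [q4]
    linarith
  set B : ℝ := (c - 20 * e) / (1 + e) ^ 2 * N with hB
  obtain ⟨i, j, hij, hBij⟩ := pair_of_average (m := m) (N := N) (κ : ℤ) Y hY0 hY1
    (P := (p - e) / (1 + e)) (B := B) (by positivity) hYm (by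
      rw [hB]
      have e1 : (c - 20 * e) / (1 + e) ^ 2 * N * ((m : ℝ) * (m - 1)) =
          (c - 20 * e) * ((m : ℝ) * (m - 1)) / (1 + e) ^ 2 * N := by ring
      rw [e1]
      apply mul_lt_mul_of_pos_right _ hNpos
      rw [div_lt_iff₀ (by positivity)]
      push_cast
      linarith)
  -- one of the blocks
  have hsum : ∑ k ∈ Finset.range N, Y i k * Y j k = (∑ r ∈ Finset.range K,
      ∑ k ∈ Finset.range N, ∑ r' ∈ Finset.range K,
        xx (F i) (T + a i * σ) w M (k + r) * xx (F j) (T + a j * σ) w M (k + r')) / (K : ℝ) ^ 2 := by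
    rw [Finset.sum_comm, Finset.sum_div]
    refine Finset.sum_congr rfl fun k _ => ?_
    simp only [hY]
    rw [div_mul_div_comm, Finset.sum_mul_sum, sq]
  have hex : ∃ r ∈ Finset.range K, B * K < ∑ k ∈ Finset.range N, ∑ r' ∈ Finset.range K,
      xx (F i) (T + a i * σ) w M (k + r) * xx (F j) (T + a j * σ) w M (k + r') := by
    by_contra hcon
    push Not at hcon
    have h1 := Finset.sum_le_sum hcon
    rw [Finset.sum_const, Finset.card_range, nsmul_eq_mul] at h1
    rw [hsum, lt_div_iff₀ (by positivity)] at hBij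
    have h2 : B * (K : ℝ) ^ 2 = K * (B * K) := by ring
    linarith
  obtain ⟨r, hrK, hr⟩ := hex
  rw [Finset.mem_range] at hrK
  have hr1 : (r : ℝ) + 1 ≤ K := by exact_mod_cast hrK
  have hr0 : (0 : ℝ) ≤ r := Nat.cast_nonneg r
  set α : ℝ := a j - a i - (r + 1) * g with hα
  have hαL : a j - a i - L ≤ α := by
    have h1 : ((r : ℝ) + 1) * g ≤ ((K : ℝ) + 1) * g := mul_le_mul_of_nonneg_right (by linarith) hg0.le
    rw [hα]; linarith
  have hαu : α ≤ a j - a i := by
    have h1 : 0 ≤ ((r : ℝ) + 1) * g := by positivity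
    rw [hα]; linarith
  refine ⟨i, j, α, hij, hαL, hαu, ?_⟩
  have hαT : 1 ≤ T + α * σ := by
    have h1 : (a j - a i - L) * σ ≤ α * σ := mul_le_mul_of_nonneg_right hαL hσ0.le
    have h2 : (a j - a i - L) * σ = a j * σ - a i * σ - L * σ := by ring
    have h3 := haσ i
    have h4 := ha0 j
    have h5 : e / 4 * H ≤ 1 / 4 * H := mul_le_mul_of_nonneg_right (by linarith) hH0.le
    linarith
  have hblock := block_le (hF i) (hF j) (T := T) (H := H) (σ := σ) (α := α) (β := α + L) (w := w)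
    (M := M) (u := T + a i * σ) (v := T + a j * σ) hw0 hM0 (by linarith) hαT N K r hrK
    (by have := ha0 i; linarith)
    (by
      push_cast
      have h1 := haσ i
      have h2 : ((N : ℝ) + K) * w = N * w + ((K : ℝ) + 1) * w - w := by ring
      have h3 : e * H ≤ e * H := le_rfl
      linarith)
    (by have := ha0 j; linarith)
    (by
      have : α * σ = a j * σ - a i * σ - (r + 1) * w := by rw [hα, hw]; ring
      rw [this]
      linarith)
    (by
      have : (α + L) * σ = a j * σ - a i * σ - (r + 1) * w + L * σ := by rw [hα, hw]; ring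
      rw [this]
      have h2 : ((K : ℝ) + 1) * w ≤ L * σ := by
        have : ((K : ℝ) + 1) * w = ((K : ℝ) + 1) * g * σ := by rw [hw]; ring
        rw [this]
        exact mul_le_mul_of_nonneg_right hKup hσ0.le
      linarith)
  refine le_trans ?_ hblock
  have h1 : M ^ 2 * (B * K) ≤ M ^ 2 * ∑ k ∈ Finset.range N, ∑ r' ∈ Finset.range K,
      xx (F i) (T + a i * σ) w M (k + r) * xx (F j) (T + a j * σ) w M (k + r') :=
    mul_le_mul_of_nonneg_left hr.le (by positivity)
  refine le_trans ?_ h1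
  have h2 : M ^ 2 * (B * K) = (c - 20 * e) * (K * g) * (N * w * (Real.log T / (2 * Real.pi))) := by
    rw [hM, hB, hw, hσ]
    field_simp
  rw [h2]
  have hc20 : 0 ≤ c - 20 * e := by linarith
  have h3 : (c - 20 * e) * ((1 - e) * L) * ((1 - e) * H * (Real.log T / (2 * Real.pi))) ≤
      (c - 20 * e) * (K * g) * (N * w * (Real.log T / (2 * Real.pi))) := by
    apply mul_le_mul
    · exact mul_le_mul_of_nonneg_left hKlow hc20
    · exact mul_le_mul_of_nonneg_right hNlow (by positivity)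
    · have : 0 ≤ (1 - e) * H := mul_nonneg (by linarith) hH0.le
      positivity
    · have : 0 ≤ (K : ℝ) * g := by positivity
      exact mul_nonneg hc20 this
  refine le_trans ?_ h3
  have h4 : (c - 20 * e) * ((1 - e) * L) * ((1 - e) * H * (Real.log T / (2 * Real.pi))) =
      (c - 20 * e) * (1 - e) ^ 2 * (L * (H / (2 * Real.pi) * Real.log T)) := by ring
  have h5 : (c - ε) * L * (H / (2 * Real.pi) * Real.log T) =
      (c - ε) * (L * (H / (2 * Real.pi) * Real.log T)) := by ring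
  rw [h4, h5]
  apply mul_le_mul_of_nonneg_right _ (by positivity)
  -- `c ≤ 5`
  have hc5 : c ≤ 4 := by
    rw [hc, div_le_iff₀ hmm]
    have h6 : 2 * (κ : ℝ) * (m * p) ≤ 2 * m * m := by
      rcases le_or_gt 0 p with h | h
      · have h7 : (m : ℝ) * p ≤ m * 1 := mul_le_mul_of_nonneg_left hp1.le (by positivity)
        calc 2 * (κ : ℝ) * (m * p) ≤ 2 * m * (m * 1) :=
              mul_le_mul (by linarith) h7 (by positivity) (by positivity)
          _ = 2 * m * m := by ring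
      · have h7 : 2 * (κ : ℝ) * (m * p) ≤ 0 :=
          mul_nonpos_of_nonneg_of_nonpos (by positivity)
            (mul_nonpos_of_nonneg_of_nonpos (by positivity) h.le)
        nlinarith
    have h8 : 0 ≤ (κ : ℝ) * (κ + 1) := by positivity
    nlinarith
  have h6 : 1 - 2 * e ≤ (1 - e) ^ 2 := by nlinarith [sq_nonneg e]
  have h7 : (c - 20 * e) * (1 - 2 * e) ≤ (c - 20 * e) * (1 - e) ^ 2 :=
    mul_le_mul_of_nonneg_left h6 hc20
  have h8 : c * e ≤ 4 * e := mul_le_mul_of_nonneg_right hc5 he0.le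
  have h9 : (c - 20 * e) * (1 - 2 * e) = c - 20 * e - 2 * (c * e) + 40 * (e * e) := by ring
  have h10 : 0 ≤ e * e := by positivity
  linarith

end Pool.Agent.Q9.RP
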